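import Pool.Agent.H207.BT.Stm
import Pool.Agent.H190.HY211.SOLVE

/-!
# Project BT, task PULL: pulling back along the orbit of a critical value
-/

set_option autoImplicit false

open Topology Filter Metric Set

namespace Pool.Agent.H483.BT207.PULL

open Pool.Agent.H211.HY Pool.Agent.H207.BT Pool.Agent.H190.HY211

section ext
variable {k : ℕ}

/-- the first coordinates -/
noncomputable def pr : (Fin (k + 1) → ℂ) →L[ℂ] (Fin k → ℂ) :=
  ContinuousLinearMap.pi fun j =>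
    ContinuousLinearMap.proj (R := ℂ) (φ := fun _ : Fin (k + 1) => ℂ) j.castSucc

theorem pr_apply (p : Fin (k + 1) → ℂ) (j : Fin k) : pr p j = p j.castSucc := rfl

theorem norm_pr (p : Fin (k + 1) → ℂ) : ‖pr p‖ ≤ ‖p‖ := by
  refine (pi_norm_le_iff_of_nonneg (norm_nonneg _)).2 fun j => ?_
  exact norm_le_pi_norm p j.castSucc

theorem pr_ball {ρ : ℝ} {p : Fin (k + 1) → ℂ} (hp : p ∈ ball (0 : Fin (k + 1) → ℂ) ρ) :
    pr p ∈ ball (0 : Fin k → ℂ) ρ := by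
  rw [mem_ball_zero_iff] at hp ⊢
  exact (norm_pr p).trans_lt hp

/-- one more coordinate -/
def sn (s : Fin k → ℂ) (t : ℂ) : Fin (k + 1) → ℂ := Fin.snoc (α := fun _ => ℂ) s t

theorem sn_cast (s : Fin k → ℂ) (t : ℂ) (j : Fin k) : sn s t j.castSucc = s j := by
  unfold sn
  exact Fin.snoc_castSucc (α := fun _ => ℂ) t s j

theorem sn_last (s : Fin k → ℂ) (t : ℂ) : sn s t (Fin.last k) = t := by
  unfold sn
  exact Fin.snoc_last (α := fun _ => ℂ) t s

theorem pr_sn (s : Fin k → ℂ) (t : ℂ) : pr (sn s t) = s := by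
  funext j
  rw [pr_apply, sn_cast]

theorem norm_sn_le {s : Fin k → ℂ} {t : ℂ} {R : ℝ} (hs : ‖s‖ ≤ R) (ht : ‖t‖ ≤ R) :
    ‖sn s t‖ ≤ R := by
  have hR : 0 ≤ R := (norm_nonneg _).trans hs
  refine (pi_norm_le_iff_of_nonneg hR).2 fun j => ?_
  refine Fin.lastCases ?_ (fun j => ?_) j
  · rw [sn_last]
    exact ht
  · rw [sn_cast]
    exact (norm_le_pi_norm s j).trans hs

theorem le_norm_sn (s : Fin k → ℂ) (t : ℂ) : ‖s‖ ≤ ‖sn s t‖ := by
  have := norm_pr (sn s t)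
  rwa [pr_sn] at this

theorem sn_sub (s s' : Fin k → ℂ) (t t' : ℂ) : sn s t - sn s' t' = sn (s - s') (t - t') := by
  funext j
  refine Fin.lastCases ?_ (fun j => ?_) j
  · rw [Pi.sub_apply, sn_last, sn_last, sn_last]
  · rw [Pi.sub_apply, sn_cast, sn_cast, sn_cast, Pi.sub_apply]

/-- the extended family -/
noncomputable def fe (f : ℕ → (Fin k → ℂ) → ℂ → ℂ) (n : ℕ) (p : Fin (k + 1) → ℂ) (w : ℂ) : ℂ := f n (pr p) w

/-- the extended critical value -/
noncomputable def ve (i : Fin k) (v : (Fin k → ℂ) → ℂ) (κ : ℂ) (p : Fin (k + 1) → ℂ) : ℂ :=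
  v (pr p) + p (Fin.last k) - κ * pr p i

theorem fe_zero (f : ℕ → (Fin k → ℂ) → ℂ → ℂ) (n : ℕ) : fe f n 0 = f n 0 := by
  funext w
  unfold fe
  rw [map_zero]

theorem DD_fe (f : ℕ → (Fin k → ℂ) → ℂ → ℂ) (z : ℕ → ℂ) (n : ℕ) : DD (fe f) z n = DD f z n := by
  unfold DD
  refine Finset.prod_congr rfl fun j _ => ?_
  rw [fe_zero]

theorem good_ext {i : Fin k} {f : ℕ → (Fin k → ℂ) → ℂ → ℂ} {v : (Fin k → ℂ) → ℂ} {z : ℕ → ℂ}
    {x : ℕ → ℝ} {ρ C c μ : ℝ} {κ : ℂ} (hG : Good i f v z x ρ C c μ κ) :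
    Good (Fin.last k) (fe f) (ve i v κ) z x ρ (C + (1 + ‖κ‖) * ρ) c μ 1 := by
  have hρ := hG.ρ0
  have hC := hG.C1
  have hC' : C ≤ C + (1 + ‖κ‖) * ρ := by
    have : 0 ≤ (1 + ‖κ‖) * ρ := by positivity
    linarith
  have hC0 : 0 < C := by linarith
  have hv : DifferentiableAt ℂ v 0 :=
    (hG.vd 0 (mem_ball_self hρ)).differentiableAt (isOpen_ball.mem_nhds (mem_ball_self hρ))
  have hlast : Differentiable ℂ (fun p : Fin (k + 1) → ℂ => p (Fin.last k)) :=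
    differentiable_apply (Fin.last k)
  have hpri : Differentiable ℂ (fun p : Fin (k + 1) → ℂ => κ * pr p i) :=
    (((ContinuousLinearMap.proj (R := ℂ) (φ := fun _ : Fin k => ℂ) i).comp pr).differentiable).const_mul κ
  refine ⟨hρ, hC.trans hC', hG.c0, hG.μ1, one_ne_zero, ?_, ?_, ?_, ?_, ?_, ?_, hG.xx, ?_, ?_, ?_, ?_⟩
  · unfold ve
    rw [map_zero, Pi.zero_apply, Pi.zero_apply, mul_zero, sub_zero, add_zero]
    exact hG.v0
  · have h1 : DifferentiableOn ℂ (fun p : Fin (k + 1) → ℂ => v (pr p)) (ball 0 ρ) :=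
      hG.vd.comp pr.differentiableOn fun p hp => pr_ball hp
    exact (h1.add hlast.differentiableOn).sub hpri.differentiableOn
  · intro p hp
    have h1 := hG.vb (pr p) (pr_ball hp)
    have h2 : ‖p‖ < ρ := mem_ball_zero_iff.1 hp
    have h3 := norm_le_pi_norm p (Fin.last k)
    have h4 : ‖pr p i‖ ≤ ‖p‖ := norm_le_pi_norm p i.castSucc
    have h5 : ‖κ‖ * ‖pr p i‖ ≤ ‖κ‖ * ρ := mul_le_mul_of_nonneg_left (h4.trans h2.le) (norm_nonneg _)
    unfold ve
    calc ‖v (pr p) + p (Fin.last k) - κ * pr p i‖ ≤ ‖v (pr p) + p (Fin.last k)‖ + ‖κ * pr p i‖ :=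
          norm_sub_le _ _
      _ ≤ ‖v (pr p)‖ + ‖p (Fin.last k)‖ + ‖κ‖ * ‖pr p i‖ := by
          rw [norm_mul]
          exact add_le_add (norm_add_le _ _) le_rfl
      _ ≤ C + (1 + ‖κ‖) * ρ := by linarith
  · intro n
    rw [fe_zero]
    exact hG.fz n
  · intro n
    have h1 : Differentiable ℂ (fun q : (Fin (k + 1) → ℂ) × ℂ => (pr q.1, q.2)) :=
      (pr.differentiable.comp differentiable_fst).prodMk differentiable_snd
    exact (hG.fd n).comp h1.differentiableOn fun q hq => ⟨pr_ball hq.1, hq.2⟩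
  · intro n p hp w hw
    exact (hG.fb n (pr p) (pr_ball hp) w hw).trans hC'
  · intro n
    rw [fe_zero]
    refine ⟨(hG.dx n).1, (hG.dx n).2.trans ?_⟩
    exact mul_le_mul_of_nonneg_right hC' (hG.xx n).1.le
  · intro n p hp w hw h
    rw [fe_zero]
    have hx := (hG.xx n).1
    have h1 : ‖pr p‖ + ‖w - z n‖ ≤ ‖p‖ + ‖w - z n‖ := by
      have := norm_pr p
      linarith
    have h2 : x n / (C + (1 + ‖κ‖) * ρ) ≤ x n / C := by gcongr
    have h3 := hG.ds n (pr p) (pr_ball hp) w hw (h1.trans (h.trans h2))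
    have h4 : deriv (fe f n p) w = deriv (f n (pr p)) w := rfl
    rw [h4]
    refine h3.trans ?_
    gcongr
  · intro n
    rw [DD_fe]
    exact hG.gr n
  · intro b
    have h1 : fderiv ℂ (ve i v κ) 0 b = fderiv ℂ v 0 (pr b) + (b (Fin.last k) - κ * pr b i) := by
      have e1 : HasFDerivAt (fun p : Fin (k + 1) → ℂ => v (pr p)) ((fderiv ℂ v 0).comp pr) 0 := by
        have e2 : HasFDerivAt v (fderiv ℂ v 0) (pr (0 : Fin (k + 1) → ℂ)) := by
          rw [map_zero]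
          exact hv.hasFDerivAt
        exact e2.comp 0 pr.hasFDerivAt
      have e3 : HasFDerivAt (fun p : Fin (k + 1) → ℂ => p (Fin.last k))
          (ContinuousLinearMap.proj (R := ℂ) (φ := fun _ : Fin (k + 1) => ℂ) (Fin.last k)) 0 :=
        (ContinuousLinearMap.proj (R := ℂ) (φ := fun _ : Fin (k + 1) => ℂ) (Fin.last k)).hasFDerivAt
      have e4 : HasFDerivAt (fun p : Fin (k + 1) → ℂ => κ * pr p i)
          (κ • ((ContinuousLinearMap.proj (R := ℂ) (φ := fun _ : Fin k => ℂ) i).comp pr)) 0 :=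
        (((ContinuousLinearMap.proj (R := ℂ) (φ := fun _ : Fin k => ℂ) i).comp pr).hasFDerivAt).const_mul κ
      have e5 : HasFDerivAt (ve i v κ) _ 0 := (e1.add e3).sub e4
      rw [e5.fderiv]
      show fderiv ℂ v 0 (pr b) + b (Fin.last k) - κ * pr b i = _
      ring
    have h2 : ∀ j, fderiv ℂ (fun p => fe f j p (z j)) 0 b =
        fderiv ℂ (fun s => f j s (z j)) 0 (pr b) := by
      intro j
      have e0 : DifferentiableAt ℂ (fun s => f j s (z j)) 0 := by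
        have e1 : DifferentiableAt ℂ (fun q : (Fin k → ℂ) × ℂ => f j q.1 q.2) (0, z j) :=
          ((hG.fd j) (0, z j) ⟨mem_ball_self hρ, mem_ball_self hρ⟩).differentiableAt
            ((isOpen_ball.prod isOpen_ball).mem_nhds ⟨mem_ball_self hρ, mem_ball_self hρ⟩)
        have e2 : DifferentiableAt ℂ (fun s : Fin k → ℂ => ((s, z j) : (Fin k → ℂ) × ℂ)) 0 :=
          DifferentiableAt.prodMk differentiableAt_fun_id (differentiableAt_const (z j))
        exact DifferentiableAt.comp (𝕜 := ℂ) (0 : Fin k → ℂ)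
          (g := fun q : (Fin k → ℂ) × ℂ => f j q.1 q.2) (f := fun s : Fin k → ℂ => (s, z j)) e1 e2
      have e2 : HasFDerivAt (fun s => f j s (z j)) (fderiv ℂ (fun s => f j s (z j)) 0)
          (pr (0 : Fin (k + 1) → ℂ)) := by
        rw [map_zero]
        exact e0.hasFDerivAt
      have e3 : HasFDerivAt (fun p => fe f j p (z j))
          ((fderiv ℂ (fun s => f j s (z j)) 0).comp pr) 0 := e2.comp 0 pr.hasFDerivAt
      rw [e3.fderiv]
      rfl
    have h3 := (hG.fn (pr b)).add_const (b (Fin.last k) - κ * pr b i)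
    have h4 : κ * pr b i + (b (Fin.last k) - κ * pr b i) = 1 * b (Fin.last k) := by ring
    rw [h4] at h3
    refine h3.congr fun n => ?_
    rw [h1]
    simp only [h2, DD_fe]
    ring

/-- the orbits of the extended family -/
theorem YY_ext (i : Fin k) (f : ℕ → (Fin k → ℂ) → ℂ → ℂ) (v : (Fin k → ℂ) → ℂ) (κ : ℂ)
    (w : (Fin k → ℂ) → ℂ) (s : Fin k → ℂ) (t : ℂ) (h : w s = v s + t - κ * s i) (n : ℕ) :
    YY (fe f) (ve i v κ) n (sn s t) = YY f w n s := by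
  induction n with
  | zero =>
    show ve i v κ (sn s t) = w s
    unfold ve
    rw [pr_sn, sn_last, h]
  | succ n ih =>
    show fe f n (sn s t) (YY (fe f) (ve i v κ) n (sn s t)) = f n s (YY f w n s)
    rw [ih]
    unfold fe
    rw [pr_sn]

end ext

/-- the contraction principle on a disc -/
theorem fixed_disc {R : ℝ} (hR : 0 ≤ R) (Φ : ℂ → ℂ) (hmap : ∀ t : ℂ, ‖t‖ ≤ R → ‖Φ t‖ ≤ R)
    (hlip : ∀ t t' : ℂ, ‖t‖ ≤ R → ‖t'‖ ≤ R → ‖Φ t' - Φ t‖ ≤ 1 / 2 * ‖t' - t‖) :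
    ∃ t : ℂ, ‖t‖ ≤ R ∧ Φ t = t := by
  have hmaps : MapsTo Φ (closedBall 0 R) (closedBall 0 R) := by
    intro s hs
    rw [mem_closedBall_zero_iff] at hs ⊢
    exact hmap s hs
  have hK : ContractingWith (1 / 2 : NNReal) (hmaps.restrict Φ _ _) := by
    refine ⟨by norm_num, LipschitzWith.of_dist_le_mul fun a b => ?_⟩
    rw [Subtype.dist_eq, Subtype.dist_eq, dist_eq_norm, dist_eq_norm]
    have ha : ‖(a : ℂ)‖ ≤ R := mem_closedBall_zero_iff.1 a.2
    have hb : ‖(b : ℂ)‖ ≤ R := mem_closedBall_zero_iff.1 b.2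
    have h1 := hlip b a hb ha
    have h2 : ((1 / 2 : NNReal) : ℝ) = 1 / 2 := by norm_num
    rw [h2]
    exact h1
  obtain ⟨y, hy, hfy, -⟩ := hK.exists_fixedPoint' (isClosed_closedBall.isComplete) hmaps
    (x := 0) (mem_closedBall_self hR) (edist_ne_top _ _)
  exact ⟨y, mem_closedBall_zero_iff.1 hy, hfy⟩

theorem YY_zero {k : ℕ} {i : Fin k} {f : ℕ → (Fin k → ℂ) → ℂ → ℂ} {v : (Fin k → ℂ) → ℂ} {z : ℕ → ℂ}
    {x : ℕ → ℝ} {ρ C c μ : ℝ} {κ : ℂ} (hG : Good i f v z x ρ C c μ κ) (n : ℕ) :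
    YY f v n 0 = z n := by
  induction n with
  | zero => exact hG.v0
  | succ n ih =>
    show f n 0 (YY f v n 0) = z (n + 1)
    rw [ih, hG.fz]

/-- **Task PULL.** -/
theorem t_PULL (h : Pool.Agent.H207.BT.S_FOL2) : Pool.Agent.H207.BT.S_PULL := by
  intro k i f v z x ρ C c μ κ hG
  have hρ := hG.ρ0
  have hC := hG.C1
  have hC0 : 0 < C := by linarith
  have hGe := good_ext hG
  obtain ⟨θ, hθ, r₀, hr₀, N₀, hF⟩ := h (k + 1) (Fin.last k) (fe f) (ve i v κ) z x ρ _ c μ 1 hGe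
    (1 / 64) (by norm_num) (1 / (2 * C)) (by positivity)
  obtain ⟨K₀, hK₀⟩ : ∃ K₀ : ℝ, K₀ = 16 + 4 * C / ρ + ‖κ‖ := ⟨_, rfl⟩
  have h4C : 0 ≤ 4 * C / ρ := by positivity
  have hK16 : 16 ≤ K₀ := by
    rw [hK₀]
    linarith [norm_nonneg κ]
  refine ⟨K₀, by linarith, θ, hθ, min r₀ (ρ / 2), lt_min hr₀ (by positivity), N₀, ?_⟩
  intro δ N hδ hδr hN hsum u r Λ hr hΛ hKr hKΛ hu hu0
  obtain ⟨D, hD⟩ : ∃ D : ℂ, D = DD f z N := ⟨_, rfl⟩
  rw [← hD] at hKΛ hu0 ⊢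
  have hDne : D ≠ 0 := by
    rw [hD]
    unfold DD
    exact Finset.prod_ne_zero_iff.2 fun j _ => (hG.dx j).1
  have hDp : 0 < ‖D‖ := norm_pos_iff.2 hDne
  obtain ⟨hYd, hYp⟩ := hF δ N hδ (hδr.trans (min_le_left _ _)) hN (by simpa only [DD_fe] using hsum)
  have hδρ : δ ≤ ρ / 2 := hδr.trans (min_le_right _ _)
  have hrδ : r ≤ δ / 16 := by
    have : 16 * r ≤ K₀ * r := mul_le_mul_of_nonneg_right hK16 hr.le
    linarith
  -- the error
  obtain ⟨E, hE⟩ : ∃ E : (Fin (k + 1) → ℂ) → ℂ, ∀ p, E p =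
    YY (fe f) (ve i v κ) N p - z N - D * p (Fin.last k) := ⟨_, fun _ => rfl⟩
  have hEd : DifferentiableOn ℂ E (ball 0 δ) := by
    have e1 : E = fun p => YY (fe f) (ve i v κ) N p - z N - D * p (Fin.last k) := funext hE
    rw [e1]
    refine (hYd.sub (differentiableOn_const _)).sub ?_
    refine (differentiableOn_const _).mul ?_
    exact (differentiable_apply (Fin.last k)).differentiableOn
  have hEb : ∀ p ∈ ball (0 : Fin (k + 1) → ℂ) δ, ‖E p‖ ≤ 1 / 64 * δ * ‖D‖ := by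
    intro p hp
    have e1 := (hYp p hp).2
    rw [DD_fe, ← hD, one_mul] at e1
    rw [hE]
    exact e1
  have hEl : ∀ p p' : Fin (k + 1) → ℂ, ‖p‖ ≤ δ / 2 → ‖p'‖ ≤ δ / 2 →
      ‖E p' - E p‖ ≤ ‖D‖ / 16 * ‖p' - p‖ := by
    intro p p' hp hp'
    refine (lip_of_bound hδ (by positivity) hEd hEb p p' hp hp').trans (le_of_eq ?_)
    field_simp
    ring
  have hE0 : E 0 = 0 := by
    rw [hE, YY_zero hGe, Pi.zero_apply, mul_zero, sub_self, sub_zero]
  have hE0l : ∀ p : Fin (k + 1) → ℂ, ‖p‖ ≤ δ / 2 → ‖E p‖ ≤ ‖D‖ / 16 * ‖p‖ := by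
    intro p hp
    have e1 := hEl 0 p (by rw [norm_zero]; positivity) hp
    rwa [hE0, sub_zero, sub_zero] at e1
  -- the distance of `u s` from `z N`
  have hus : ∀ s ∈ ball (0 : Fin k → ℂ) r, ‖u s - z N‖ ≤ δ * ‖D‖ / 8 := by
    intro s hs
    have e1 := hu s hs 0 (mem_ball_self hr)
    rw [sub_zero] at e1
    have e2 : ‖s‖ ≤ r := (mem_ball_zero_iff.1 hs).le
    have e3 : ‖u s - z N‖ ≤ ‖u s - u 0‖ + ‖u 0 - z N‖ := by
      have := norm_add_le (u s - u 0) (u 0 - z N)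
      rwa [sub_add_sub_cancel] at this
    have e4 : Λ * ‖s‖ ≤ Λ * r := mul_le_mul_of_nonneg_left e2 hΛ
    have e5 : 16 * (Λ * r) ≤ K₀ * (Λ * r) := mul_le_mul_of_nonneg_right hK16 (by positivity)
    have e6 : 16 * ‖u 0 - z N‖ ≤ K₀ * ‖u 0 - z N‖ :=
      mul_le_mul_of_nonneg_right hK16 (norm_nonneg _)
    have e7 : K₀ * (Λ * r) ≤ δ * ‖D‖ := by
      rw [← mul_assoc]
      exact hKΛ
    linarith
  -- the fixed points
  have hex : ∀ s : Fin k → ℂ, ∃ t : ℂ, s ∈ ball (0 : Fin k → ℂ) r →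
      ‖t‖ ≤ δ / 4 ∧ D * t + E (sn s t) = u s - z N := by
    intro s
    by_cases hs : s ∈ ball (0 : Fin k → ℂ) r
    · have hsr : ‖s‖ ≤ δ / 4 := by
        have := (mem_ball_zero_iff.1 hs).le
        linarith
      obtain ⟨t, ht, hfix⟩ := fixed_disc (R := δ / 4) (by positivity)
        (fun t => (u s - z N - E (sn s t)) / D) (by
          intro t ht
          have e1 := norm_sn_le hsr ht
          have e2 := hE0l (sn s t) (by linarith)
          have e3 := hus s hs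
          have e4 : ‖D‖ / 16 * ‖sn s t‖ ≤ ‖D‖ / 16 * (δ / 4) :=
            mul_le_mul_of_nonneg_left e1 (by positivity)
          rw [norm_div, div_le_iff₀ hDp]
          refine (norm_sub_le _ _).trans ?_
          have e5 : 0 < δ * ‖D‖ := by positivity
          nlinarith) (by
          intro t t' ht ht'
          have e1 := norm_sn_le hsr ht
          have e2 := norm_sn_le hsr ht'
          have e3 := hEl (sn s t) (sn s t') (by linarith) (by linarith)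
          rw [sn_sub, sub_self] at e3
          have e4 : ‖sn (0 : Fin k → ℂ) (t' - t)‖ ≤ ‖t' - t‖ :=
            norm_sn_le (by rw [norm_zero]; exact norm_nonneg _) le_rfl
          have e5 : ‖D‖ / 16 * ‖sn (0 : Fin k → ℂ) (t' - t)‖ ≤ ‖D‖ / 16 * ‖t' - t‖ :=
            mul_le_mul_of_nonneg_left e4 (by positivity)
          rw [← sub_div, norm_div, div_le_iff₀ hDp]
          have e6 : u s - z N - E (sn s t') - (u s - z N - E (sn s t)) =
            -(E (sn s t') - E (sn s t)) := by ring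
          rw [e6, norm_neg]
          have e7 : 0 ≤ ‖D‖ * ‖t' - t‖ := by positivity
          linarith)
      refine ⟨t, fun _ => ⟨ht, ?_⟩⟩
      have e1 : (u s - z N - E (sn s t)) / D = t := hfix
      rw [div_eq_iff hDne] at e1
      linear_combination -e1
    · exact ⟨0, fun h => absurd h hs⟩
  choose t ht using hex
  obtain ⟨w, hw⟩ : ∃ w : (Fin k → ℂ) → ℂ, ∀ s, w s = v s + t s - κ * s i := ⟨_, fun _ => rfl⟩
  have hY : ∀ (n : ℕ) (s : Fin k → ℂ), YY (fe f) (ve i v κ) n (sn s (t s)) = YY f w n s :=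
    fun n s => YY_ext i f v κ w s (t s) (hw s) n
  have hsn : ∀ s ∈ ball (0 : Fin k → ℂ) r, ‖sn s (t s)‖ ≤ δ / 4 := by
    intro s hs
    refine norm_sn_le ?_ (ht s hs).1
    have := (mem_ball_zero_iff.1 hs).le
    linarith
  -- the Lipschitz estimate of `t`
  have htl : ∀ s ∈ ball (0 : Fin k → ℂ) r, ∀ s' ∈ ball (0 : Fin k → ℂ) r,
      ‖t s - t s'‖ ≤ (1 + 2 * Λ / ‖D‖) * ‖s - s'‖ := by
    intro s hs s' hs'
    have e1 := (ht s hs).2
    have e2 := (ht s' hs').2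
    have e3 : D * (t s - t s') = (u s - u s') - (E (sn s (t s)) - E (sn s' (t s'))) := by
      linear_combination e1 - e2
    have e4 := hEl (sn s' (t s')) (sn s (t s)) (by linarith [hsn s' hs']) (by linarith [hsn s hs])
    rw [sn_sub] at e4
    have e5 : ‖sn (s - s') (t s - t s')‖ ≤ ‖s - s'‖ + ‖t s - t s'‖ :=
      norm_sn_le (by linarith [norm_nonneg (t s - t s')]) (by linarith [norm_nonneg (s - s')])
    have e6 : ‖D‖ / 16 * ‖sn (s - s') (t s - t s')‖ ≤ ‖D‖ / 16 * (‖s - s'‖ + ‖t s - t s'‖) :=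
      mul_le_mul_of_nonneg_left e5 (by positivity)
    have e7 : ‖D‖ * ‖t s - t s'‖ ≤ Λ * ‖s - s'‖ + ‖D‖ / 16 * (‖s - s'‖ + ‖t s - t s'‖) := by
      rw [← norm_mul, e3]
      refine (norm_sub_le _ _).trans (add_le_add (hu s hs s' hs') (e4.trans e6))
    have e8 : ‖D‖ * ‖t s - t s'‖ ≤ ‖D‖ * ((1 + 2 * Λ / ‖D‖) * ‖s - s'‖) := by
      have e9 : ‖D‖ * ((1 + 2 * Λ / ‖D‖) * ‖s - s'‖) = ‖D‖ * ‖s - s'‖ + 2 * (Λ * ‖s - s'‖) := by
        field_simp
      rw [e9]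
      have e10 : 0 ≤ ‖D‖ * ‖s - s'‖ := by positivity
      have e11 : 0 ≤ Λ * ‖s - s'‖ := by positivity
      have e12 : 0 ≤ ‖D‖ * ‖t s - t s'‖ := by positivity
      linarith
    exact le_of_mul_le_mul_left e8 hDp
  have hw0 : w 0 - z 0 = t 0 := by
    rw [hw, Pi.zero_apply, mul_zero, hG.v0]
    ring
  have h00 : (0 : Fin k → ℂ) ∈ ball (0 : Fin k → ℂ) r := mem_ball_self hr
  have hsn0 : ‖sn (0 : Fin k → ℂ) (t 0)‖ ≤ ‖t 0‖ :=
    norm_sn_le (by rw [norm_zero]; exact norm_nonneg _) le_rfl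
  have hE1 : ‖E (sn 0 (t 0))‖ ≤ ‖D‖ / 16 * ‖t 0‖ :=
    (hE0l _ (by linarith [hsn 0 h00])).trans (mul_le_mul_of_nonneg_left hsn0 (by positivity))
  have hDt : 0 ≤ ‖D‖ * ‖t 0‖ := by positivity
  refine ⟨w, ?_, ?_, ?_, ?_⟩
  · intro s hs s' hs'
    have e1 := htl s hs s' hs'
    have e2 : ‖v s - v s'‖ ≤ 4 * C / ρ * ‖s - s'‖ := by
      refine lip_of_bound hρ hC0.le hG.vd hG.vb s' s ?_ ?_
      · have := (mem_ball_zero_iff.1 hs').le
        linarith
      · have := (mem_ball_zero_iff.1 hs).le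
        linarith
    have e3 : ‖κ * s i - κ * s' i‖ ≤ ‖κ‖ * ‖s - s'‖ := by
      rw [← mul_sub, norm_mul]
      exact mul_le_mul_of_nonneg_left (norm_le_pi_norm (s - s') i) (norm_nonneg _)
    have e4 : ‖w s - w s'‖ ≤ ‖v s - v s'‖ + ‖t s - t s'‖ + ‖κ * s i - κ * s' i‖ := by
      have e5 : w s - w s' = (v s - v s') + (t s - t s') - (κ * s i - κ * s' i) := by
        rw [hw, hw]
        ring
      rw [e5]
      exact (norm_sub_le _ _).trans (add_le_add (norm_add_le _ _) le_rfl)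
    refine e4.trans ?_
    have e6 : 2 * Λ / ‖D‖ ≤ K₀ * Λ / ‖D‖ := by
      have : 2 * Λ ≤ K₀ * Λ := mul_le_mul_of_nonneg_right (by linarith) hΛ
      gcongr
    have e7 : 4 * C / ρ + (1 + 2 * Λ / ‖D‖) + ‖κ‖ ≤ K₀ + K₀ * Λ / ‖D‖ := by
      rw [hK₀] at e6 ⊢
      linarith
    calc ‖v s - v s'‖ + ‖t s - t s'‖ + ‖κ * s i - κ * s' i‖
        ≤ 4 * C / ρ * ‖s - s'‖ + (1 + 2 * Λ / ‖D‖) * ‖s - s'‖ + ‖κ‖ * ‖s - s'‖ :=
          add_le_add (add_le_add e2 e1) e3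
      _ = (4 * C / ρ + (1 + 2 * Λ / ‖D‖) + ‖κ‖) * ‖s - s'‖ := by ring
      _ ≤ _ := mul_le_mul_of_nonneg_right e7 (norm_nonneg _)
  · rw [hw0]
    have e1 := (ht 0 h00).2
    have e2 : ‖u 0 - z N‖ ≤ ‖D‖ * ‖t 0‖ + ‖D‖ / 16 * ‖t 0‖ := by
      rw [← e1, ← norm_mul]
      exact (norm_add_le _ _).trans (add_le_add le_rfl hE1)
    have e3 : 16 * (‖D‖ * ‖t 0‖) ≤ K₀ * (‖D‖ * ‖t 0‖) := mul_le_mul_of_nonneg_right hK16 hDt
    linarith
  · rw [hw0]
    have e1 := (ht 0 h00).2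
    have e2 : ‖D‖ * ‖t 0‖ ≤ ‖u 0 - z N‖ + ‖D‖ / 16 * ‖t 0‖ := by
      have e3 : D * t 0 = (u 0 - z N) - E (sn 0 (t 0)) := by linear_combination e1
      rw [← norm_mul, e3]
      exact (norm_sub_le _ _).trans (add_le_add le_rfl hE1)
    have e4 : 16 * ‖u 0 - z N‖ ≤ K₀ * ‖u 0 - z N‖ :=
      mul_le_mul_of_nonneg_right hK16 (norm_nonneg _)
    linarith [norm_nonneg (u 0 - z N)]
  · intro s hs
    have e1 : sn s (t s) ∈ ball (0 : Fin (k + 1) → ℂ) δ := by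
      rw [mem_ball_zero_iff]
      linarith [hsn s hs]
    constructor
    · have e2 := (ht s hs).2
      rw [hE, hY, sn_last] at e2
      linear_combination e2
    · intro n hn
      have e2 := (hYp _ e1).1 n hn
      rw [hY] at e2
      refine ⟨e2.1, ?_⟩
      have e3 := le_norm_sn s (t s)
      have e4 : 1 / (2 * C) * x n = x n / (2 * C) := by ring
      linarith [e2.2]

end Pool.Agent.H483.BT207.PULL
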